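import Mathlib

/-!
# Weighted sums of squares of generalized central trinomial coefficients

Write `β = b - 2c`.  Then `T_j(b,c²) = A_j(c_k) = ∑_k C(j,k) β^{j-k} c^k C(2k,k)`, and
`T_j² = ∑_i C(j,i) β^{2(j-i)} c^i K_i` where `K_i` is the value on `(βX + βY + cXY)^i` of the
functional `X^p Y^q ↦ C(2p,p) C(2q,q)`.  Integration by parts for this functional gives
`(i+1) ∣ (β - 2c) K_i - 8 β² K_{i-1}`, and the theorem follows by summing over `j`.
-/

set_option autoImplicit false

namespace Pool.Agent.Results.MP_bba144_nt.SquaredTrinomialSums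

open Finset Polynomial

section general

variable {R : Type*} [CommRing R] (β c : R)

/-- shift of a sequence -/
def sh (F : ℕ → R) : ℕ → R := fun k => F (k + 1)

/-- multiplication by the index -/
def th (F : ℕ → R) : ℕ → R := fun k => (k : R) * F k

/-- value on `(βX + βY + cXY)^m` of the functional `X^p Y^q ↦ F p * G q` -/
def Φ : ℕ → (ℕ → R) → (ℕ → R) → R
  | 0, F, G => F 0 * G 0
  | m + 1, F, G => β * Φ m (sh F) G + β * Φ m F (sh G) + c * Φ m (sh F) (sh G)

lemma Φ_succ (m : ℕ) (F G : ℕ → R) :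
    Φ β c (m + 1) F G = β * Φ β c m (sh F) G + β * Φ β c m F (sh G) + c * Φ β c m (sh F) (sh G) := rfl

lemma sh_lin (x y : R) (F F' : ℕ → R) :
    sh (fun k => x * F k + y * F' k) = fun k => x * sh F k + y * sh F' k := rfl

lemma Φ_symm (m : ℕ) : ∀ F G : ℕ → R, Φ β c m F G = Φ β c m G F := by
  induction m with
  | zero => intro F G; simp only [Φ]; ring
  | succ m ih =>
    intro F G
    rw [Φ_succ, Φ_succ, ih (sh F) G, ih F (sh G), ih (sh F) (sh G)]
    ring

lemma Φ_lin (x y : R) (m : ℕ) : ∀ F F' G : ℕ → R,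
    Φ β c m (fun k => x * F k + y * F' k) G = x * Φ β c m F G + y * Φ β c m F' G := by
  induction m with
  | zero => intro F F' G; simp only [Φ]; ring
  | succ m ih =>
    intro F F' G
    rw [Φ_succ, Φ_succ, Φ_succ, sh_lin, ih, ih, ih]
    ring

/-- the Euler operator -/
lemma Φ_th (m : ℕ) : ∀ F G : ℕ → R,
    Φ β c (m + 1) (th F) G = ((m : R) + 1) * (β * Φ β c m (sh F) G + c * Φ β c m (sh F) (sh G)) := by
  induction m with
  | zero =>
    intro F G
    simp only [Φ, sh, th]
    push_cast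
    ring
  | succ m ih =>
    intro F G
    have e : sh (th F) = fun k => (1 : R) * th (sh F) k + 1 * sh F k := by
      funext k
      simp only [sh, th]
      push_cast
      ring
    rw [Φ_succ, e, Φ_lin, Φ_lin, ih, ih, ih, Φ_succ β c m (sh F) G, Φ_succ β c m (sh F) (sh G)]
    push_cast
    ring

/-- central binomial coefficients -/
def cb : ℕ → R := fun k => ((2 * k).choose k : R)

/-- shifted central binomial coefficients `C(2k-2,k-1)`, with value `0` at `k = 0` -/
def cb' : ℕ → R := fun k => if k = 0 then 0 else ((2 * (k - 1)).choose (k - 1) : R)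

lemma sh_cb' : sh (cb' : ℕ → R) = cb := by
  funext k; simp [sh, cb', cb]

lemma cb_rec (k : ℕ) : ((k : R) + 1) * cb (k + 1) = 2 * (2 * (k : R) + 1) * cb k := by
  have h := Nat.succ_mul_centralBinom_succ k
  simp only [Nat.centralBinom] at h
  have h' := congrArg (fun z : ℕ => (z : R)) h
  push_cast at h'
  simpa [cb] using h'

/-- `k c_{k+1} = 4 k c_k + 2 c_k - c_{k+1}` -/
lemma th_sh_cb : th (sh (cb : ℕ → R))
    = fun k => (1 : R) * (fun k => (4 : R) * th cb k + 2 * cb k) k + (-1) * sh cb k := by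
  funext k
  have h := cb_rec (R := R) k
  simp only [sh, th]
  linear_combination h

/-- `k c_k = 4 k c'_k - 2 c'_k` -/
lemma th_cb : th (cb : ℕ → R) = fun k => (4 : R) * th cb' k + (-2) * cb' k := by
  funext k
  rcases Nat.eq_zero_or_pos k with rfl | hk
  · simp [th, cb']
  · obtain ⟨j, rfl⟩ : ∃ j, k = j + 1 := ⟨k - 1, by omega⟩
    have h := cb_rec (R := R) j
    simp only [th, cb']
    rw [if_neg (by omega), show j + 1 - 1 = j by omega]
    have e : ((2 * j).choose j : R) = cb j := rfl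
    rw [e]
    push_cast
    linear_combination h

/-- relation (1) -/
lemma rel1 (m : ℕ) : ∃ y : R, (β + 2 * c) * Φ β c m (sh cb) (sh cb) = ((m : R) + 2) * y := by
  have h1 := Φ_th β c m (sh cb) cb
  have h2 := Φ_th β c m cb cb
  rw [th_sh_cb, Φ_lin, Φ_lin, h2, Φ_succ, Φ_succ, Φ_symm β c m cb (sh cb)] at h1
  refine ⟨-(β * Φ β c m (sh (sh cb)) cb + c * Φ β c m (sh (sh cb)) (sh cb)
    - 4 * β * Φ β c m (sh cb) cb - 4 * c * Φ β c m (sh cb) (sh cb)), ?_⟩
  linear_combination -h1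

/-- relations (2) and (3) combined -/
lemma rel2 (m : ℕ) : ∃ y : R, Φ β c (m + 1) cb cb - 8 * β * Φ β c m cb cb
    - 4 * c * Φ β c m (sh cb) cb = ((m : R) + 2) * y := by
  -- (2)
  have h1 := Φ_th β c m (cb : ℕ → R) cb
  have h2 := Φ_th β c m (cb' : ℕ → R) cb
  rw [th_cb, Φ_lin, h2, sh_cb', Φ_succ, sh_cb', Φ_symm β c m cb (sh cb)] at h1
  -- (3)
  have h3 := Φ_th β c m (sh cb) (cb' : ℕ → R)
  have h4 := Φ_th β c m (cb : ℕ → R) cb'
  rw [th_sh_cb, Φ_lin, Φ_lin, h4, Φ_succ, Φ_succ, sh_cb', Φ_symm β c m (sh cb) cb'] at h3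
  rw [Φ_succ, Φ_symm β c m cb (sh cb)]
  refine ⟨-(4 * (β * Φ β c m cb cb + c * Φ β c m (sh cb) cb)
      - (β * Φ β c m (sh cb) cb + c * Φ β c m (sh cb) (sh cb)))
    + (4 * (β * Φ β c m cb' (sh cb) + c * Φ β c m (sh cb) cb)
      - β * Φ β c m (sh (sh cb)) cb' - c * Φ β c m (sh (sh cb)) cb), ?_⟩
  linear_combination h1 - h3

/-- `A_j(F) = ∑_k C(j,k) β^{j-k} c^k F_k` -/
def A (j : ℕ) (F : ℕ → R) : R := ∑ k ∈ range (j + 1), (j.choose k : R) * β ^ (j - k) * c ^ k * F k

lemma A_zero (F : ℕ → R) : A β c 0 F = F 0 := by simp [A]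

lemma A_succ (j : ℕ) (F : ℕ → R) : A β c (j + 1) F = β * A β c j F + c * A β c j (sh F) := by
  unfold A
  have e1 : β * ∑ k ∈ range (j + 1), (j.choose k : R) * β ^ (j - k) * c ^ k * F k
      = ∑ k ∈ range (j + 1 + 1), (j.choose k : R) * β ^ (j + 1 - k) * c ^ k * F k := by
    rw [sum_range_succ _ (j + 1), Nat.choose_eq_zero_of_lt (Nat.lt_succ_self j), mul_sum]
    simp only [Nat.cast_zero, zero_mul, add_zero]
    apply sum_congr rfl
    intro k hk
    have hk' : k ≤ j := by have := mem_range.mp hk; omega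
    rw [show j + 1 - k = j - k + 1 by omega, pow_succ]
    ring
  rw [e1, sum_range_succ' _ (j + 1), sum_range_succ' _ (j + 1), mul_sum]
  simp only [Nat.choose_zero_right, sh]
  rw [add_right_comm, ← sum_add_distrib]
  congr 1
  apply sum_congr rfl
  intro k hk
  rw [Nat.choose_succ_succ, show j + 1 - (k + 1) = j - k by omega, pow_succ]
  push_cast
  ring

/-- the product of two `A`s as a binomial transform -/
lemma A_mul (j : ℕ) : ∀ F G : ℕ → R, A β c j F * A β c j G
    = ∑ i ∈ range (j + 1), (j.choose i : R) * β ^ (2 * (j - i)) * c ^ i * Φ β c i F G := by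
  induction j with
  | zero => intro F G; simp [A_zero, Φ]
  | succ j ih =>
    intro F G
    rw [A_succ, A_succ]
    have e0 : (β * A β c j F + c * A β c j (sh F)) * (β * A β c j G + c * A β c j (sh G))
        = β ^ 2 * (A β c j F * A β c j G) + c * (β * (A β c j (sh F) * A β c j G)
          + β * (A β c j F * A β c j (sh G)) + c * (A β c j (sh F) * A β c j (sh G))) := by ring
    rw [e0, ih F G, ih (sh F) G, ih F (sh G), ih (sh F) (sh G)]
    have e1 : β ^ 2 * ∑ i ∈ range (j + 1), (j.choose i : R) * β ^ (2 * (j - i)) * c ^ i * Φ β c i F G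
        = ∑ i ∈ range (j + 1 + 1), (j.choose i : R) * β ^ (2 * (j + 1 - i)) * c ^ i * Φ β c i F G := by
      rw [sum_range_succ _ (j + 1), Nat.choose_eq_zero_of_lt (Nat.lt_succ_self j), mul_sum]
      simp only [Nat.cast_zero, zero_mul, add_zero]
      apply sum_congr rfl
      intro k hk
      have hk' : k ≤ j := by have := mem_range.mp hk; omega
      rw [show 2 * (j + 1 - k) = 2 * (j - k) + 2 by omega, pow_add]
      ring
    rw [e1, sum_range_succ' _ (j + 1), sum_range_succ' _ (j + 1)]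
    simp only [Nat.choose_zero_right]
    rw [add_right_comm]
    congr 1
    rw [mul_sum, mul_sum, mul_sum, ← sum_add_distrib, ← sum_add_distrib, mul_sum, ← sum_add_distrib]
    apply sum_congr rfl
    intro i hi
    rw [Nat.choose_succ_succ, show 2 * (j + 1 - (i + 1)) = 2 * (j - i) by omega, pow_succ, Φ_succ]
    push_cast
    ring

lemma sum_choose_cast (n i : ℕ) : ∑ j ∈ range n, (j.choose i : R) = (n.choose (i + 1) : R) := by
  induction n with
  | zero => simp
  | succ n ih => rw [sum_range_succ, ih, Nat.choose_succ_succ]; push_cast; ring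

lemma mul_choose_cast (j i : ℕ) :
    (j : R) * (j.choose i : R) = (i : R) * (j.choose i : R) + ((i : R) + 1) * (j.choose (i + 1) : R) := by
  have h : j * j.choose i = i * j.choose i + (i + 1) * j.choose (i + 1) := by
    rcases le_or_gt i j with h | h
    · have h1 := Nat.choose_succ_right_eq j i
      obtain ⟨d, rfl⟩ := Nat.exists_eq_add_of_le h
      rw [show i + d - i = d by omega] at h1
      linarith
    · rw [Nat.choose_eq_zero_of_lt h, Nat.choose_eq_zero_of_lt (by omega)]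
      simp
  have h' := congrArg (fun z : ℕ => (z : R)) h
  push_cast at h'
  exact h'

/-- the weighted sum of squares -/
def Sq (n : ℕ) : R :=
  ∑ j ∈ range n, (8 * c * (j : R) + 6 * c + β) * (A β c j cb * A β c j cb) * β ^ (2 * (n - 1 - j))

lemma Sq_eq (n : ℕ) : Sq β c n = ∑ i ∈ range n, β ^ (2 * (n - 1 - i)) * c ^ i * Φ β c i cb cb *
    ((8 * c * (i : R) + 6 * c + β) * (n.choose (i + 1) : R)
      + 8 * c * ((i : R) + 1) * (n.choose (i + 2) : R)) := by
  unfold Sq
  have h1 : ∀ j ∈ range n, (8 * c * (j : R) + 6 * c + β) * (A β c j cb * A β c j cb)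
      * β ^ (2 * (n - 1 - j))
      = ∑ i ∈ range n, β ^ (2 * (n - 1 - i)) * c ^ i * Φ β c i cb cb *
        ((8 * c * (i : R) + 6 * c + β) * (j.choose i : R)
          + 8 * c * ((i : R) + 1) * (j.choose (i + 1) : R)) := by
    intro j hj
    have hj' := mem_range.mp hj
    rw [A_mul]
    have h2 : ∑ i ∈ range (j + 1), (j.choose i : R) * β ^ (2 * (j - i)) * c ^ i * Φ β c i cb cb
        = ∑ i ∈ range n, (j.choose i : R) * β ^ (2 * (j - i)) * c ^ i * Φ β c i cb cb := by
      apply sum_subset (Finset.range_subset_range.mpr (by omega))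
      intro i _ hi
      rw [Nat.choose_eq_zero_of_lt (by simpa using hi)]
      simp
    rw [h2, mul_sum, sum_mul]
    apply sum_congr rfl
    intro i hi
    rcases le_or_gt i j with hij | hij
    · have e : β ^ (2 * (n - 1 - i)) = β ^ (2 * (j - i)) * β ^ (2 * (n - 1 - j)) := by
        rw [← pow_add]; congr 1; omega
      have h3 := mul_choose_cast (R := R) j i
      rw [e]
      linear_combination (8 * c * β ^ (2 * (j - i)) * c ^ i * Φ β c i cb cb * β ^ (2 * (n - 1 - j))) * h3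
    · rw [Nat.choose_eq_zero_of_lt hij, Nat.choose_eq_zero_of_lt (show j < i + 1 by omega)]
      simp
  rw [sum_congr rfl h1, sum_comm]
  apply sum_congr rfl
  intro i _
  rw [← mul_sum, sum_add_distrib, ← mul_sum, ← mul_sum, sum_choose_cast, sum_choose_cast]

lemma Sq_eq' (n : ℕ) : Sq β c (n + 1) = β ^ (2 * n) * Φ β c 0 cb cb * (6 * c + β) * ((n : R) + 1)
    + ∑ i ∈ range n, β ^ (2 * (n - (i + 1))) * c ^ (i + 1) * ((n + 1).choose (i + 2) : R) *
      ((8 * c * ((i : R) + 1) + 6 * c + β) * Φ β c (i + 1) cb cb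
        + 8 * ((i : R) + 1) * β ^ 2 * Φ β c i cb cb) := by
  rw [Sq_eq]
  have h1 : ∑ i ∈ range (n + 1), β ^ (2 * (n + 1 - 1 - i)) * c ^ i * Φ β c i cb cb *
      (8 * c * ((i : R) + 1) * ((n + 1).choose (i + 2) : R))
      = ∑ i ∈ range n, β ^ (2 * (n - (i + 1))) * c ^ (i + 1) * ((n + 1).choose (i + 2) : R) *
        (8 * ((i : R) + 1) * β ^ 2 * Φ β c i cb cb) := by
    rw [sum_range_succ, Nat.choose_eq_zero_of_lt (show n + 1 < n + 2 by omega)]
    simp only [Nat.cast_zero, mul_zero, add_zero]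
    apply sum_congr rfl
    intro i hi
    have hi' := mem_range.mp hi
    rw [show 2 * (n + 1 - 1 - i) = 2 * (n - (i + 1)) + 2 by omega, pow_add, pow_succ c i]
    ring
  have h2 : ∑ i ∈ range (n + 1), β ^ (2 * (n + 1 - 1 - i)) * c ^ i * Φ β c i cb cb *
      ((8 * c * (i : R) + 6 * c + β) * ((n + 1).choose (i + 1) : R))
      = β ^ (2 * n) * Φ β c 0 cb cb * (6 * c + β) * ((n : R) + 1)
        + ∑ i ∈ range n, β ^ (2 * (n - (i + 1))) * c ^ (i + 1) * ((n + 1).choose (i + 2) : R) *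
          ((8 * c * ((i : R) + 1) + 6 * c + β) * Φ β c (i + 1) cb cb) := by
    rw [sum_range_succ', add_comm]
    congr 1
    · simp
      ring
    · apply sum_congr rfl
      intro i hi
      rw [show n + 1 - 1 - (i + 1) = n - (i + 1) by omega]
      push_cast
      ring
  have h0 : ∑ i ∈ range (n + 1), β ^ (2 * (n + 1 - 1 - i)) * c ^ i * Φ β c i cb cb *
      ((8 * c * (i : R) + 6 * c + β) * ((n + 1).choose (i + 1) : R)
        + 8 * c * ((i : R) + 1) * ((n + 1).choose (i + 2) : R))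
      = ∑ i ∈ range (n + 1), β ^ (2 * (n + 1 - 1 - i)) * c ^ i * Φ β c i cb cb *
      ((8 * c * (i : R) + 6 * c + β) * ((n + 1).choose (i + 1) : R))
      + ∑ i ∈ range (n + 1), β ^ (2 * (n + 1 - 1 - i)) * c ^ i * Φ β c i cb cb *
      (8 * c * ((i : R) + 1) * ((n + 1).choose (i + 2) : R)) := by
    rw [← sum_add_distrib]
    apply sum_congr rfl
    intro i _
    ring
  rw [h0, h1, h2, add_assoc, ← sum_add_distrib]
  congr 1
  apply sum_congr rfl
  intro i _
  ring

/-- divisibility by `n`, given divisibility of `Φ (sh cb) (sh cb)` -/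
theorem dvd_Sq (H : ∀ m : ℕ, ((m : R) + 2) ∣ Φ β c m (sh cb) (sh cb)) (n : ℕ) :
    (n : R) ∣ Sq β c n := by
  rcases Nat.eq_zero_or_pos n with rfl | hn
  · simp [Sq]
  obtain ⟨n, rfl⟩ : ∃ k, n = k + 1 := ⟨n - 1, by omega⟩
  rw [Sq_eq']
  apply dvd_add
  · refine ⟨β ^ (2 * n) * Φ β c 0 cb cb * (6 * c + β), ?_⟩
    push_cast; ring
  · apply dvd_sum
    intro i _
    obtain ⟨y2, hy2⟩ := rel2 β c i
    obtain ⟨y3, hy3⟩ := H i
    have hs := Φ_succ β c i cb cb
    rw [Φ_symm β c i cb (sh cb)] at hs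
    have hch : ((i : R) + 2) * ((n + 1).choose (i + 2) : R) = ((n : R) + 1) * (n.choose (i + 1) : R) := by
      have h := Nat.add_one_mul_choose_eq n (i + 1)
      have h' := congrArg (fun z : ℕ => (z : R)) h
      push_cast at h'
      rw [h']
      ring
    refine ⟨β ^ (2 * (n - (i + 1))) * c ^ (i + 1) * (n.choose (i + 1) : R) *
      (8 * c * Φ β c (i + 1) cb cb + 8 * β ^ 2 * Φ β c i cb cb + β * y2 - 2 * c ^ 2 * y3), ?_⟩
    have hb : (8 * c * ((i : R) + 1) + 6 * c + β) * Φ β c (i + 1) cb cb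
        + 8 * ((i : R) + 1) * β ^ 2 * Φ β c i cb cb
        = ((i : R) + 2) * (8 * c * Φ β c (i + 1) cb cb + 8 * β ^ 2 * Φ β c i cb cb + β * y2
          - 2 * c ^ 2 * y3) := by
      linear_combination β * hy2 - 2 * c ^ 2 * hy3 - 2 * c * hs
    rw [hb]
    push_cast
    linear_combination (β ^ (2 * (n - (i + 1))) * c ^ (i + 1) *
      (8 * c * Φ β c (i + 1) cb cb + 8 * β ^ 2 * Φ β c i cb cb + β * y2 - 2 * c ^ 2 * y3)) * hch

end general

/-! ### Specialisation -/

/-- In `ℤ[X]` with `β = X`. -/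
lemma H_poly (c : ℤ) (m : ℕ) :
    ((m : ℤ[X]) + 2) ∣ Φ (X : ℤ[X]) (C c) m (sh cb) (sh cb) := by
  obtain ⟨y, hy⟩ := rel1 (X : ℤ[X]) (C c) m
  set g := Φ (X : ℤ[X]) (C c) m (sh cb) (sh cb) with hg
  have e0 : ((m : ℤ[X]) + 2) = C ((m : ℤ) + 2) := by simp
  rw [e0] at hy ⊢
  rw [C_dvd_iff_dvd_coeff]
  have hc : ∀ k, ((m : ℤ) + 2) ∣ ((X + 2 * C c) * g).coeff k := by
    have := (C_dvd_iff_dvd_coeff ((m : ℤ) + 2) ((X + 2 * C c) * g)).mp ⟨y, hy⟩
    exact this
  -- downward induction on the degree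
  have key : ∀ d k : ℕ, g.natDegree ≤ k + d → ((m : ℤ) + 2) ∣ g.coeff k := by
    intro d
    induction d with
    | zero =>
      intro k hk
      have h1 := hc (k + 1)
      rw [add_mul, coeff_add, mul_assoc, coeff_X_mul] at h1
      have h2 : (2 * (C c * g)).coeff (k + 1) = 0 := by
        have e : (2 * (C c * g) : ℤ[X]) = C (2 * c) * g := by
          rw [C_mul]; simp [mul_assoc]
        rw [e, coeff_C_mul, coeff_eq_zero_of_natDegree_lt (by omega), mul_zero]
      rwa [h2, add_zero] at h1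
    | succ d ih =>
      intro k hk
      have h1 := hc (k + 1)
      rw [add_mul, coeff_add, mul_assoc, coeff_X_mul] at h1
      have h2 : (2 * (C c * g)).coeff (k + 1) = 2 * c * g.coeff (k + 1) := by
        have e : (2 * (C c * g) : ℤ[X]) = C (2 * c) * g := by
          rw [C_mul]; simp [mul_assoc]
        rw [e, coeff_C_mul]
      rw [h2] at h1
      have h3 := ih (k + 1) (by omega)
      exact (dvd_add_left (Dvd.dvd.mul_left h3 _)).mp h1
  intro k
  exact key g.natDegree k (by omega)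

/-- `T_m(b,c)`: the coefficient of `x^m` in `(x² + b x + c)^m`. -/
noncomputable def T (b c : ℤ) (m : ℕ) : ℤ := ((X ^ 2 + C b * X + C c) ^ m : ℤ[X]).coeff m

lemma T_eq (b c : ℤ) (m : ℕ) : T b (c ^ 2) m = A (b - 2 * c) c m cb := by
  have e1 : (X ^ 2 + C b * X + C (c ^ 2) : ℤ[X]) = (X + C c) ^ 2 + C (b - 2 * c) * X := by
    simp only [map_sub, map_mul, map_pow]
    rw [show (C (2 : ℤ) : ℤ[X]) = 2 from rfl]
    ring
  unfold T A
  rw [e1, add_pow, finsetSum_coeff]
  apply sum_congr rfl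
  intro k hk
  have hk' : k ≤ m := by have := mem_range.mp hk; omega
  have e2 : ((X + C c : ℤ[X]) ^ 2) ^ k * (C (b - 2 * c) * X) ^ (m - k) * ((m.choose k : ℕ) : ℤ[X])
      = C ((b - 2 * c) ^ (m - k) * (m.choose k : ℤ)) * ((X + C c) ^ (2 * k) * X ^ (m - k)) := by
    rw [mul_pow, ← pow_mul]
    simp only [map_mul, map_pow, map_natCast]
    ring
  rw [e2, coeff_C_mul, coeff_mul_X_pow', if_pos (by omega), coeff_X_add_C_pow,
    show m - (m - k) = k by omega, show 2 * k - k = k by omega]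
  simp only [cb]
  ring

lemma map_Phi {R S : Type*} [CommRing R] [CommRing S] (f : R →+* S) (β c : R) (j : ℕ) :
    f (A β c j cb) = A (f β) (f c) j cb := by
  unfold A cb
  simp

/-- **Q1 is true.** -/
theorem result (b c : ℤ) (n : ℕ) (_hn : 1 ≤ n) :
    (n : ℤ) ∣ ∑ j ∈ range n, (8 * c * (j : ℤ) + 4 * c + b) * T b (c ^ 2) j ^ 2
      * (b - 2 * c) ^ (2 * (n - 1 - j)) := by
  obtain ⟨g, hg⟩ := dvd_Sq (X : ℤ[X]) (C c) (H_poly c) n
  have h := congrArg (Polynomial.evalRingHom (b - 2 * c)) hg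
  have e : Polynomial.evalRingHom (b - 2 * c) (Sq (X : ℤ[X]) (C c) n)
      = ∑ j ∈ range n, (8 * c * (j : ℤ) + 4 * c + b) * T b (c ^ 2) j ^ 2
      * (b - 2 * c) ^ (2 * (n - 1 - j)) := by
    unfold Sq
    rw [map_sum]
    apply sum_congr rfl
    intro j _
    rw [map_mul, map_mul, map_mul, map_Phi, T_eq]
    simp only [coe_evalRingHom, eval_add, eval_mul, eval_pow, eval_C, eval_X, eval_ofNat,
      eval_natCast]
    ring
  rw [e, map_mul] at h
  rw [h]
  exact Dvd.dvd.mul_right (by simp) _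

end Pool.Agent.Results.MP_bba144_nt.SquaredTrinomialSums
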